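import Mathlib
import Pool.Agent.N315.PS.Palin

/-!
# The gaps between palindromic primes in all sequential random models

The integers are decided one after the other and the conditional probability of choosing the integer `n + 1`, given
the decisions up to `n`, is asymptotic to `1 / log n`, almost surely.  Nothing else is assumed: no independence and
no rate of convergence.  The independent model of Cramér and the random sieve of Hawkins are examples.

Let `x_0 < x_1 < ...` be ANY sequence of integers with `log x_n / log n → D > 0`, for example the palindromes with an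
odd number of decimal digits in increasing order (`D = 2`; every palindromic prime other than `11` has an odd number
of digits).  Almost surely, (1) the number of the `n < N` such that `x_n` is chosen is asymptotic to `N / (D log N)`;
(2) the number of the chosen integers among the `x_i` with `n < i ≤ n + λ D log n` follows the Poisson law with
parameter `λ`; (3) the gaps in the index between consecutive chosen members of the sequence, divided by `D log n`,
have asymptotically the exponential distribution with mean one.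

Proof. The conditional probability of exactly `r` successes among the members of a window is bounded from above by
the exact limit; an exponential inequality for windows which do not overlap gives the upper frequencies of all `r`,
almost surely; as the limits have the sum one, these are the frequencies.  The gap law follows from the laws of all
windows and the law of large numbers (1).  The counting function of the palindromes is computed.
-/

set_option autoImplicit false

open MeasureTheory Filter Set ProbabilityTheory Polynomial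
open scoped Topology

namespace Pool.Agent.Results.MP_540de1_nt.GapLaws

variable {Ω : Type}

/-- `A n` is the event that `n` is chosen; adapted to `ℱ`; the conditional probability of `A (n + 1)` given
`ℱ n`, times `log n`, tends almost surely to one -/
def SequentialModel [m : MeasurableSpace Ω] (μ : Measure Ω) (ℱ : Filtration ℕ m) (A : ℕ → Set Ω) : Prop :=
  (∀ n, MeasurableSet[ℱ n] (A n)) ∧
  ∀ᵐ ω ∂μ, Tendsto (fun n : ℕ => (μ[(A (n + 1)).indicator (fun _ => (1 : ℝ)) | ℱ n]) ω * Real.log n) atTop (𝓝 1)

/-- The model of Cramér: independent events, `n` is chosen with probability `1 / log n` for `n ≥ 3`. -/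
def CramerModel [MeasurableSpace Ω] (μ : Measure Ω) (A : ℕ → Set Ω) : Prop :=
  (∀ n, MeasurableSet (A n)) ∧ iIndepSet A μ ∧ ∀ n : ℕ, 3 ≤ n → μ (A n) = ENNReal.ofReal (1 / Real.log n)

open Classical in
/-- The random sieve of Hawkins: `2` is chosen, and given the decisions up to `n ≥ 2` the number
`n + 1` is chosen with probability `∏ (1 - 1 / h)`, the product over the chosen `2 ≤ h ≤ n`. -/
def HawkinsSieve [m : MeasurableSpace Ω] (μ : Measure Ω) (ℱ : Filtration ℕ m) (A : ℕ → Set Ω) : Prop :=
  (∀ n, MeasurableSet[ℱ n] (A n)) ∧ A 2 = univ ∧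
  ∀ n, 2 ≤ n → μ[(A (n + 1)).indicator (fun _ => (1 : ℝ)) | ℱ n] =ᵐ[μ]
    fun ω => ∏ h ∈ Finset.Icc 2 n, if ω ∈ A h then 1 - 1 / (h : ℝ) else 1

/-- the palindromes with an odd number of decimal digits, in increasing order -/
noncomputable def palindrome (n : ℕ) : ℕ :=
  Nat.nth (fun t => (Nat.digits 10 t).length % 2 = 1 ∧ (Nat.digits 10 t).reverse = Nat.digits 10 t) n

/-- the least index `i > n` such that `x i` is an element of `S` -/
noncomputable def nextIndex (x : ℕ → ℕ) (S : Set ℕ) (n : ℕ) : ℕ := sInf {i | x i ∈ S ∧ n < i}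

/-- The laws for the members of the sequence `x` in the set `S`, with the constant `D`: (1) the number of the `n < N`
with `x n ∈ S`, times `log N / N`, tends to `1 / D`; and for all `λ > 0`, (2) the proportion of the `n < N` with
exactly `r` indices `i`, `n < i ≤ n + λ D log n`, `x i ∈ S`, tends to `λ ^ r / r! exp (-λ)`; (3) the proportion of
the `n` with `nextIndex x S n - n > λ D log n` among the `n < N` with `x n ∈ S` tends to `exp (-λ)`. -/
def PoissonLaws (x : ℕ → ℕ) (S : Set ℕ) (D : ℝ) : Prop :=
  Tendsto (fun N : ℕ => ({n : ℕ | n < N ∧ x n ∈ S}.ncard : ℝ) * Real.log N / N) atTop (𝓝 (1 / D)) ∧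
  ∀ lam : ℝ, 0 < lam →
    (∀ r : ℕ, Tendsto (fun N : ℕ => ({n : ℕ | n < N ∧
      {i : ℕ | x i ∈ S ∧ n < i ∧ (i : ℝ) ≤ n + lam * D * Real.log n}.ncard = r}.ncard : ℝ) / N)
      atTop (𝓝 (lam ^ r / (r.factorial : ℝ) * Real.exp (-lam)))) ∧
    Tendsto (fun N : ℕ => ({n : ℕ | n < N ∧ x n ∈ S ∧ lam * D * Real.log n < (nextIndex x S n : ℝ) - n}.ncard : ℝ) /
      ({n : ℕ | n < N ∧ x n ∈ S}.ncard : ℝ)) atTop (𝓝 (Real.exp (-lam)))

open Pool.Agent.N740.HK Pool.Agent.R528.RM Pool.Agent.N315.CC Pool.Agent.N315.PL Pool.Agent.N315.PS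

lemma prod_inv (A : ℕ → Set Ω) (n : ℕ) (ω : Ω) [DecidablePred fun h => ω ∈ A h] :
    (∏ h ∈ Finset.Icc 2 n, if ω ∈ A h then 1 - 1 / (h : ℝ) else 1) = (Y A n ω)⁻¹ := by
  unfold Y
  rw [← Finset.prod_inv_distrib]
  refine Finset.prod_congr rfl fun h hh => ?_
  have h2 : (2 : ℝ) ≤ h := by exact_mod_cast (Finset.mem_Icc.1 hh).1
  by_cases hA : ω ∈ A h
  · rw [if_pos hA, if_pos hA, inv_div]
    field_simp
  · rw [if_neg hA, if_neg hA, inv_one]

lemma log_ratio : Tendsto (fun n : ℕ => (Real.log ((n + 1 : ℕ) : ℝ))⁻¹ * Real.log n) atTop (𝓝 1) := by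
  have h1 : Tendsto (fun n : ℕ => Real.log ((n : ℝ) + 1) - Real.log n) atTop (𝓝 0) := by
    have h1 : Tendsto (fun n : ℕ => 1 + (1 : ℝ) / n) atTop (𝓝 (1 + 0)) :=
      tendsto_const_nhds.add tendsto_one_div_atTop_nhds_zero_nat
    rw [add_zero] at h1
    have h2 := (Real.continuousAt_log (one_ne_zero)).tendsto.comp h1
    rw [Real.log_one] at h2
    refine h2.congr' ?_
    filter_upwards [eventually_gt_atTop 0] with n hn
    have hn' : (0 : ℝ) < n := by exact_mod_cast hn
    show Real.log (1 + 1 / (n : ℝ)) = _
    rw [← Real.log_div (by positivity) hn'.ne']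
    congr 1
    field_simp
  have h2 : Tendsto (fun n : ℕ => Real.log ((n : ℝ) + 1)) atTop atTop :=
    Real.tendsto_log_atTop.comp (tendsto_atTop_add_const_right _ _ tendsto_natCast_atTop_atTop)
  have h3 := h1.div_atTop h2
  have h4 : Tendsto (fun n : ℕ => 1 - (Real.log ((n : ℝ) + 1) - Real.log n) / Real.log ((n : ℝ) + 1)) atTop (𝓝 (1 - 0)) :=
    tendsto_const_nhds.sub h3
  rw [sub_zero] at h4
  refine h4.congr' ?_
  filter_upwards [h2.eventually_gt_atTop 0] with n hn
  push_cast
  field_simp
  ring

lemma laws_of {x : ℕ → ℕ} {S : Set ℕ} {D : ℝ} (h : Laws (fun M s => sInf {t | t ∈ M ∧ s < t}) {n | x n ∈ S} (1 / D) 1) :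
    PoissonLaws x S D := by
  have e : ∀ lam t : ℝ, lam / (1 / D) * t ^ 1 = lam * D * t := fun lam t => by rw [pow_one, one_div, div_inv_eq_mul]
  unfold Laws at h
  simp only [e] at h
  obtain ⟨h1, h2⟩ := h
  simp only [pow_one] at h1
  exact ⟨h1, h2⟩

end Pool.Agent.Results.MP_540de1_nt.GapLaws

open Pool.Agent.Results.MP_540de1_nt.GapLaws Pool.Agent.N740.HK Pool.Agent.R528.RM Pool.Agent.N315.PS Pool.Agent.N315.CC Pool.Agent.N315.PL Polynomial

/-- The model of Cramér (for some filtration) and the random sieve of Hawkins are sequential models.  In every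
sequential model: (1) almost surely the laws of `PoissonLaws` hold for the chosen palindromes with an odd number of
digits, with `D = 2`; (2) for every strictly increasing sequence `x` of integers with `log (x n) / log n → D > 0`,
almost surely the laws of `PoissonLaws` hold for the chosen members of `x`. -/
theorem Pool.Agent.Results.MP_540de1_nt.GapLaws.result
    {Ω : Type} [m : MeasurableSpace Ω] (μ : Measure Ω) [IsProbabilityMeasure μ] (A : ℕ → Set Ω) :
    (CramerModel μ A → ∃ ℱ : Filtration ℕ m, SequentialModel μ ℱ A) ∧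
    (∀ ℱ : Filtration ℕ m, HawkinsSieve μ ℱ A → SequentialModel μ ℱ A) ∧
    (∀ ℱ : Filtration ℕ m, SequentialModel μ ℱ A →
      (∀ᵐ ω ∂μ, PoissonLaws palindrome {n | ω ∈ A n} 2) ∧
      (∀ (x : ℕ → ℕ) (D : ℝ), StrictMono x → 0 < D →
        Tendsto (fun n : ℕ => Real.log (x n) / Real.log n) atTop (𝓝 D) →
        ∀ᵐ ω ∂μ, PoissonLaws x {n | ω ∈ A n} D)) := by
  classical
  refine ⟨?_, ?_, ?_⟩
  · rintro ⟨hA, hi, hp⟩
    refine ⟨gen hA, gen_meas hA, ?_⟩
    have h1 : ∀ᵐ ω ∂μ, ∀ n, (μ[(A (n + 1)).indicator (fun _ => (1 : ℝ)) | gen hA n]) ω =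
        (μ (A (n + 1))).toReal := ae_all_iff.2 fun n => dens_gen hA hi n
    filter_upwards [h1] with ω hω
    refine log_ratio.congr' ?_
    filter_upwards [eventually_ge_atTop 2] with n hn
    rw [hω, hp (n + 1) (by omega), ENNReal.toReal_ofReal, one_div]
    have : 0 ≤ Real.log ((n + 1 : ℕ) : ℝ) := Real.log_natCast_nonneg _
    positivity
  · rintro ℱ ⟨h1, h2, h3⟩
    have hs : Pool.Agent.N740.HK.HS μ ℱ A := ⟨h1, h2, fun n hn => by
      filter_upwards [h3 n hn] with ω hω
      rw [← prod_inv]
      exact hω⟩
    exact ⟨h1, Pool.Agent.N740.HK.hawk_dens hs⟩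
  · rintro ℱ ⟨hA, hd⟩
    have hprof := dens_profile (μ := μ) (ℱ := ℱ) hA 1 one_pos (fun n hn => absurd (Nat.coprime_one_right n) hn) (by
      rw [Nat.totient_one, Nat.cast_one, div_one]
      filter_upwards [hd] with ω hω
      exact hω.mono_left inf_le_left)
    have key : ∀ (x : ℕ → ℕ) (D : ℝ), StrictMono x → 0 < D →
        Tendsto (fun n : ℕ => Real.log (x n) / Real.log n) atTop (𝓝 D) →
        ∀ᵐ ω ∂μ, PoissonLaws x {n | ω ∈ A n} D := by
      intro x D hx hD hlog
      filter_upwards [seq_laws hA hprof hx hD hlog] with ω hω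
      exact laws_of hω
    exact ⟨key palindrome 2 ps_mono (by norm_num) ps_log, key⟩
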