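import Mathlib
import Pool.Agent.N256.PL.Pal

set_option autoImplicit false

/-!
# Palindromic primes in every sequential random model of the primes

The question is whether there are infinitely many primes whose decimal expansion is a palindrome.  We
answer it, with the asymptotic number of the palindromes with exactly `2 n + 1` digits, in EVERY
sequential random model of the primes: the integers are decided one after the other, only integers
coprime to a fixed `Q` can be chosen, and the conditional probability of choosing `n + 1` (coprime to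
`Q`) given the past is asymptotic to `(Q / φ(Q)) / log n`.  No independence is assumed.
-/

open MeasureTheory Filter
open scoped Topology

namespace Pool.Agent.Results.MP_540de1_nt.SievedModels

/-- the palindromes with exactly `2 n + 1` decimal digits -/
def palindromes (n : ℕ) : Set ℕ :=
  {t | (Nat.digits 10 t).length = 2 * n + 1 ∧ (Nat.digits 10 t).reverse = Nat.digits 10 t}

open Pool.Agent.N909.TF Pool.Agent.N256.PL

lemma palindromes_eq (n : ℕ) : palindromes n = pal n := rfl

open Classical in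
/-- the palindromes as a finite set -/
noncomputable def fam (n : ℕ) : Finset ℕ := (Finset.range (10 ^ (2 * n + 1))).filter (fun t => t ∈ pal n)

lemma mem_fam (n t : ℕ) : t ∈ fam n ↔ t ∈ pal n := by
  classical
  unfold fam
  rw [Finset.mem_filter, Finset.mem_range]
  exact ⟨fun h => h.2, fun h => ⟨(pal_size h).2, h⟩⟩

lemma card_cop (Q n : ℕ) : (cop (fam n) (fun t => {t}) Q).card = (pal n ∩ {t | Nat.Coprime t Q}).ncard := by
  classical
  rw [← Set.ncard_coe_finset]
  congr 1
  ext t
  unfold cop
  simp only [Finset.coe_filter, Finset.mem_singleton, forall_eq, mem_fam, Set.mem_ofPred_eq, Set.mem_inter_iff]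

lemma card_cho {Ω : Type} (A : ℕ → Set Ω) (n : ℕ) (ω : Ω) :
    (cho A (fam n) (fun t => {t}) ω).card = (pal n ∩ {t | ω ∈ A t}).ncard := by
  classical
  rw [← Set.ncard_coe_finset]
  congr 1
  ext t
  unfold cho
  simp only [Finset.coe_filter, Finset.mem_singleton, forall_eq, mem_fam, Set.mem_ofPred_eq, Set.mem_inter_iff]

/-- the logarithms of the palindromes -/
lemma no_far (δ : ℝ) (hδ : 0 < δ) (Q : ℕ) : ∀ᶠ n : ℕ in atTop,
    (far (cop (fam n) (fun t => {t}) Q) (fun t => {t}) (2 * n * Real.log 10) δ).card = 0 := by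
  classical
  have hl : 0 < Real.log 10 := Real.log_pos (by norm_num)
  filter_upwards [(tendsto_natCast_atTop_atTop (R := ℝ)).eventually_ge_atTop (1 / (2 * δ))] with n hn
  rw [Finset.card_eq_zero, Finset.eq_empty_iff_forall_notMem]
  intro t ht
  unfold far cop at ht
  simp only [Finset.mem_filter, Finset.mem_singleton, exists_eq_left, forall_eq] at ht
  obtain ⟨⟨h1, -⟩, h2⟩ := ht
  obtain ⟨h3, h4⟩ := pal_size ((mem_fam n t).1 h1)
  have h5 : (10 : ℝ) ^ (2 * n) ≤ t := by exact_mod_cast h3
  have h6 : (t : ℝ) ≤ 10 ^ (2 * n + 1) := by exact_mod_cast h4.le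
  have h7 : 2 * n * Real.log 10 ≤ Real.log t := by
    have := Real.log_le_log (by positivity) h5
    rw [Real.log_pow] at this
    push_cast at this
    exact this
  have h8 : Real.log t ≤ 2 * n * Real.log 10 + Real.log 10 := by
    have := Real.log_le_log (by have : (0:ℝ) < 10 ^ (2 * n) := by positivity
                                linarith) h6
    rw [Real.log_pow] at this
    push_cast at this
    linarith
  have h9 : Real.log 10 ≤ δ * (2 * n * Real.log 10) := by
    rw [div_le_iff₀ (by positivity)] at hn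
    nlinarith
  rw [abs_of_nonneg (by linarith)] at h2
  linarith

end Pool.Agent.Results.MP_540de1_nt.SievedModels

open Pool.Agent.Results.MP_540de1_nt.SievedModels Pool.Agent.N909.TF Pool.Agent.N256.PL in
/-- Let `A n` be the event that `n` belongs to a random set adapted to a filtration `ℱ`, let
`Q ≥ 1`, let no integer which is not coprime to `Q` be chosen, and let the conditional probability of
`A (n + 1)` given `ℱ n`, times `log n`, tend to `Q / φ(Q)` along the `n` with `n + 1` coprime to `Q`,
almost surely.  Let `C = 10` if `Q` has a common factor with `10`, and `C = 9` otherwise.  (1) The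
number of the palindromes with `2 n + 1` digits which are coprime to `Q` is asymptotic to
`C (φ(Q) / Q) 10 ^ n`.  (2) Almost surely, the number of the chosen palindromes with `2 n + 1` digits
is asymptotic to `C 10 ^ n / (2 n log 10)`.  (3) Almost surely, for all large `n` there is a chosen
palindrome with exactly `2 n + 1` digits; in particular infinitely many palindromes are chosen. -/
theorem Pool.Agent.Results.MP_540de1_nt.SievedModels.result
    {Ω : Type} [mΩ : MeasurableSpace Ω] (μ : Measure Ω) [IsProbabilityMeasure μ]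
    (ℱ : Filtration ℕ mΩ) (A : ℕ → Set Ω) (hA : ∀ n, MeasurableSet[ℱ n] (A n))
    (Q : ℕ) (hQ : 0 < Q) (hcop : ∀ n, ¬ Nat.Coprime n Q → A n = ∅)
    (hd : ∀ᵐ ω ∂μ, Tendsto (fun n : ℕ =>
      (μ[(A (n + 1)).indicator (fun _ => (1 : ℝ)) | ℱ n]) ω * Real.log n)
      (atTop ⊓ 𝓟 {n : ℕ | Nat.Coprime (n + 1) Q}) (𝓝 ((Q : ℝ) / Nat.totient Q)))
    (C : ℝ) (hC : C = if Nat.Coprime Q 10 then 9 else 10) :
    Tendsto (fun n : ℕ => ((palindromes n ∩ {t : ℕ | Nat.Coprime t Q}).ncard : ℝ) / 10 ^ n) atTop
      (𝓝 (C * (Nat.totient Q / (Q : ℝ)))) ∧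
    (∀ᵐ ω ∂μ, Tendsto (fun n : ℕ => ((palindromes n ∩ {t : ℕ | ω ∈ A t}).ncard : ℝ) /
      (10 ^ n / (2 * n * Real.log 10))) atTop (𝓝 C)) ∧
    (∀ᵐ ω ∂μ, (∀ᶠ n : ℕ in atTop, ∃ t ∈ palindromes n, ω ∈ A t) ∧
      {t : ℕ | ω ∈ A t ∧ (Nat.digits 10 t).reverse = Nat.digits 10 t}.Infinite) := by
  classical
  have hl : 0 < Real.log 10 := Real.log_pos (by norm_num)
  have hQr : (0 : ℝ) < Q := by exact_mod_cast hQ
  have hφ : (0 : ℝ) < Nat.totient Q := by exact_mod_cast Nat.totient_pos.2 hQ
  set c : ℝ := (Q : ℝ) / Nat.totient Q with hc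
  have hc0 : 0 < c := by positivity
  have hC0 : 0 < C := by
    rw [hC]
    split_ifs <;> norm_num
  have hconst := const_eq Q hQ
  rw [← hC] at hconst
  set κ : ℝ := (Dg Q : ℝ) * (Nat.totient (mm Q) / (mm Q : ℝ)) with hκ
  have hκC : κ = C * (Nat.totient Q / (Q : ℝ)) := by
    rw [← hconst]
    field_simp
  have hconst' : κ * c = C := hconst
  have hκ0 : 0 < κ := by rw [hκC]; positivity
  have h1 : Tendsto (fun n : ℕ => ((pal n ∩ {t : ℕ | Nat.Coprime t Q}).ncard : ℝ) / 10 ^ n) atTop (𝓝 κ) :=
    pal_count Q hQ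
  have hbig : ∀ᶠ n : ℕ in atTop, κ / 2 * 10 ^ n ≤ ((pal n ∩ {t : ℕ | Nat.Coprime t Q}).ncard : ℝ) := by
    filter_upwards [h1.eventually (le_mem_nhds (show κ / 2 < κ by linarith))] with n hn
    rwa [le_div_iff₀ (by positivity)] at hn
  have hL : Tendsto (fun n : ℕ => 2 * (n : ℝ) * Real.log 10) atTop atTop :=
    (tendsto_natCast_atTop_atTop.const_mul_atTop (by norm_num)).atTop_mul_const hl
  have hE : Tendsto (fun n : ℕ => ((cop (fam n) (fun t => {t}) Q).card : ℝ) /
      (((1 : ℕ) : ℝ) * Real.log n * (2 * (n : ℝ) * Real.log 10) ^ 1)) atTop atTop := by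
    have t1 : Tendsto (fun n : ℕ => (10 : ℝ) ^ n / (n : ℝ) ^ 2) atTop atTop := by
      have t2 := tendsto_pow_const_div_const_pow_of_one_lt 2 (show (1 : ℝ) < 10 by norm_num)
      have t3 : Tendsto (fun n : ℕ => ((n : ℝ) ^ 2 / 10 ^ n)⁻¹) atTop atTop := by
        refine Tendsto.inv_tendsto_nhdsGT_zero ?_
        rw [tendsto_nhdsWithin_iff]
        refine ⟨t2, ?_⟩
        filter_upwards [eventually_gt_atTop 0] with n hn
        have : (0 : ℝ) < n := by exact_mod_cast hn
        exact Set.mem_Ioi.2 (by positivity)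
      refine t3.congr fun n => ?_
      rw [inv_div]
    have t4 := t1.const_mul_atTop (show (0 : ℝ) < κ / (4 * Real.log 10) by positivity)
    refine tendsto_atTop_mono' _ ?_ t4
    filter_upwards [hbig, eventually_gt_atTop 1] with n g1 g2
    have hn : (1 : ℝ) < n := by exact_mod_cast g2
    have hln : 0 < Real.log n := Real.log_pos hn
    have hln2 : Real.log n ≤ n := by
      have := Real.log_le_sub_one_of_pos (show (0:ℝ) < n by linarith)
      linarith
    rw [card_cop, pow_one, Nat.cast_one, one_mul]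
    calc κ / (4 * Real.log 10) * (10 ^ n / (n : ℝ) ^ 2) = κ / 2 * 10 ^ n / (n * (2 * n * Real.log 10)) := by
          field_simp
          norm_num
      _ ≤ κ / 2 * 10 ^ n / (Real.log n * (2 * n * Real.log 10)) := by gcongr
      _ ≤ _ := by gcongr
  have hlaw := sieved (μ := μ) hA Q hQ hcop hd 1 fam (fun _ t => {t}) (fun _ => 1)
    (fun n j _ => Finset.card_singleton j)
    (fun n j hj => by
      rw [Finset.mem_singleton]
      have h2 := (pal_size ((mem_fam n j).1 hj)).1
      have : 0 < 10 ^ (2 * n) := by positivity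
      omega)
    (fun n t => by
      refine Finset.card_le_one.2 fun a ha b hb => ?_
      simp only [Finset.mem_filter, Finset.mem_singleton] at ha hb
      rw [← ha.2, ← hb.2])
    atTop le_rfl (fun n : ℕ => 2 * (n : ℝ) * Real.log 10) hL
    (fun δ hδ => by
      filter_upwards [no_far δ hδ Q] with n hn
      rw [hn, Nat.cast_zero, zero_mul]
      positivity) hE
  have h2 : ∀ᵐ ω ∂μ, Tendsto (fun n : ℕ => ((pal n ∩ {t : ℕ | ω ∈ A t}).ncard : ℝ) /
      (10 ^ n / (2 * n * Real.log 10))) atTop (𝓝 C) := by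
    filter_upwards [hlaw] with ω hω
    have e1 : Tendsto (fun n : ℕ => ((pal n ∩ {t : ℕ | Nat.Coprime t Q}).ncard : ℝ) / 10 ^ n * c) atTop (𝓝 C) := by
      have := h1.mul_const c
      rwa [hconst'] at this
    have e2 : Tendsto (fun n : ℕ => ((pal n ∩ {t : ℕ | ω ∈ A t}).ncard : ℝ) / (10 ^ n / (2 * n * Real.log 10)) -
        ((pal n ∩ {t : ℕ | Nat.Coprime t Q}).ncard : ℝ) / 10 ^ n * c) atTop (𝓝 0) := by
      rw [Metric.tendsto_nhds]
      intro ε hε
      have e3 := e1.eventually (ge_mem_nhds (show C < C + 1 by linarith))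
      filter_upwards [hω (ε / (2 * (C + 1))) (by positivity), e3, eventually_gt_atTop 0] with n g1 g2 g3
      have hn : (0 : ℝ) < n := by exact_mod_cast g3
      rw [card_cop, card_cho, pow_one] at g1
      rw [Real.dist_eq, sub_zero]
      set R : ℝ := ((pal n ∩ {t : ℕ | ω ∈ A t}).ncard : ℝ)
      set N : ℝ := ((pal n ∩ {t : ℕ | Nat.Coprime t Q}).ncard : ℝ)
      have hL0 : 0 < 2 * (n : ℝ) * Real.log 10 := by positivity
      have hT : (0 : ℝ) < 10 ^ n := by positivity
      have e4 : R / (10 ^ n / (2 * n * Real.log 10)) - N / 10 ^ n * c =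
          (R - N * (c / (2 * n * Real.log 10))) * ((2 * n * Real.log 10) / 10 ^ n) := by
        field_simp
      rw [e4, abs_mul, abs_of_pos (show 0 < (2 * n * Real.log 10) / 10 ^ n by positivity)]
      calc |R - N * (c / (2 * n * Real.log 10))| * ((2 * n * Real.log 10) / 10 ^ n)
          ≤ ε / (2 * (C + 1)) * (N * (c / (2 * n * Real.log 10))) * ((2 * n * Real.log 10) / 10 ^ n) :=
            mul_le_mul_of_nonneg_right g1 (by positivity)
        _ = ε / (2 * (C + 1)) * (N / 10 ^ n * c) := by field_simp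
        _ ≤ ε / (2 * (C + 1)) * (C + 1) := mul_le_mul_of_nonneg_left g2 (by positivity)
        _ < ε := by
          have : ε / (2 * (C + 1)) * (C + 1) = ε / 2 := by field_simp
          rw [this]
          linarith
    have e5 := e2.add e1
    rw [zero_add] at e5
    refine e5.congr fun n => ?_
    ring
  refine ⟨by rw [← hκC]; exact h1, h2, ?_⟩
  filter_upwards [h2] with ω hω
  have h3 : ∀ᶠ n : ℕ in atTop, ∃ t ∈ palindromes n, ω ∈ A t := by
    filter_upwards [hω.eventually (lt_mem_nhds hC0)] with n hn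
    by_contra hcon
    push Not at hcon
    have : pal n ∩ {t : ℕ | ω ∈ A t} = ∅ := by
      rw [Set.eq_empty_iff_forall_notMem]
      rintro t ⟨h4, h5⟩
      exact hcon t h4 h5
    rw [this, Set.ncard_empty, Nat.cast_zero, zero_div] at hn
    exact lt_irrefl _ hn
  refine ⟨h3, ?_⟩
  rw [Set.infinite_iff_exists_gt]
  intro a
  obtain ⟨n, ⟨t, ht, hta⟩, hn⟩ := (h3.and (eventually_gt_atTop a)).exists
  refine ⟨t, ⟨hta, ht.2⟩, ?_⟩
  have h4 := (pal_size ht).1
  have h5 : n < 10 ^ n := Nat.lt_pow_self (by norm_num)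
  have h6 : 10 ^ n ≤ 10 ^ (2 * n) := Nat.pow_le_pow_right (by norm_num) (by omega)
  omega
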