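import Pool.Agent.N449.SX.Pal

/-!
# Sparse factors of the palindromes `10 ^ (2 n) + c 10 ^ n + 1`

A prime palindrome greater than 11 has an odd number of digits. The palindromes with an odd number of digits, first digit 1
and three nonzero digits are the numbers `10 ^ (2 n) + c 10 ^ n + 1`, `1 ≤ c ≤ 9`. We prove that the two factors in a
factorization of such a number cannot both be sums of few signed powers of 10, or of few short blocks of decimal digits,
if `3 ≤ c ≤ 9`, except for `c = 7` and `n ≡ 2 mod 4`, and if `c = 1` and `n` is a power of 3. This list is complete: if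
`c = 7` and `n ≡ 2 mod 4` then the palindrome is a product of two numbers with five signed decimal digits 1, ±1, 5, ±1, 1,
if `c = 2` it is a square, and if `c = 1` and a prime `r ≠ 3` divides `n` then `10 ^ (2 n / r) + 10 ^ (n / r) + 1` is a factor.

Proof. `Pool/Agent/N449/SK`, `SV`: comparison of digits in suitable blocks gives a factorization of the polynomial
`k ^ 2 X ^ (2 q) + c k X ^ q + 1`, `k = 10 ^ n`, for some bounded `q`. `Pool/Agent/N449/SW`, `SX`: this polynomial is
irreducible for all `q`. By Capelli's theorem (proved in `SW/Capelli.lean`) one has to show that `- u / k` is no `r`-th power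
for primes `r` and not of the form `- 4 w ^ 4` in `ℚ(u)`, `u ^ 2 - c u + 1 = 0`. This is done with norms and traces: an
`r`-th power for odd `r` gives an integer `a` such that `c` is the value at `a` of the Dickson polynomial of degree `r`.
-/

set_option autoImplicit false

namespace Pool.Agent.Results.MP_540de1_nt.SparseFactors

/-- **Sparse factors of the palindromes `10 ^ (2 n) + c 10 ^ n + 1`.** -/
theorem result :
    -- the palindromes with digits `1`, `c`, `1` and zeros
    (∀ n : ℕ, 0 < n → ∀ c : ℕ, c < 10 → (Nat.digits 10 (10 ^ (2 * n) + c * 10 ^ n + 1)).Palindrome) ∧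
    (∀ n : ℕ, 0 < n → ∀ c : ℕ, 3 ≤ c → c ≤ 9 → (c = 7 → n % 4 ≠ 2) →
      ∀ d e : ℤ, d * e = 10 ^ (2 * n) + c * 10 ^ n + 1 → 1 < |d| → 1 < |e| →
      ∀ (S T : Finset ℕ) (u v : ℕ → ℤ), d = ∑ i ∈ S, u i * 10 ^ i → e = ∑ j ∈ T, v j * 10 ^ j →
        (10 : ℤ) ^ n ≤ (c + 12 + (∑ i ∈ S, |u i|) * (∑ j ∈ T, |v j|)) ^
          (4 * T.card * (8 * T.card) ^ (S.card - 1))) ∧
    -- `c = 1`
    (∀ n l : ℕ, n = 3 ^ l →
      ∀ d e : ℤ, d * e = 10 ^ (2 * n) + 10 ^ n + 1 → 1 < |d| → 1 < |e| →
      ∀ (S T : Finset ℕ) (u v : ℕ → ℤ), d = ∑ i ∈ S, u i * 10 ^ i → e = ∑ j ∈ T, v j * 10 ^ j →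
        (10 : ℤ) ^ n ≤ (13 + (∑ i ∈ S, |u i|) * (∑ j ∈ T, |v j|)) ^
          (4 * T.card * (8 * T.card) ^ (S.card - 1))) ∧
    -- the exceptional case `c = 7`, `n ≡ 2 mod 4`
    (∀ m : ℕ, (10 : ℤ) ^ (2 * (4 * m + 2)) + 7 * 10 ^ (4 * m + 2) + 1 =
      (10 ^ (4 * m + 2) + 10 ^ (3 * m + 2) + 5 * 10 ^ (2 * m + 1) + 10 ^ (m + 1) + 1) *
        (10 ^ (4 * m + 2) - 10 ^ (3 * m + 2) + 5 * 10 ^ (2 * m + 1) - 10 ^ (m + 1) + 1)) := by
  refine ⟨?_, ?_, ?_, ?_⟩
  · intro n hn c hc
    exact Pool.Agent.N449.SX.digits_pal n c hn hc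
  · intro n hn c hc hc' h7 d e h hd he S T u v hS hT
    exact Pool.Agent.N449.SX.pal n hn c hc hc' h7 d e h hd he S T u v hS hT
  · intro n l hn d e h hd he S T u v hS hT
    exact Pool.Agent.N449.SX.pal_one n l hn d e h hd he S T u v hS hT
  · intro m
    ring

end Pool.Agent.Results.MP_540de1_nt.SparseFactors
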